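import Pool.Agent.Lib.MP_94c136_al.RZ.Final

set_option autoImplicit false

open Pool.Agent.Lib.MP_94c136_al

namespace Pool.Agent.Results.MP_94c136_al.Realisation

universe u

/-- Every second countable, locally compact, totally disconnected topological group is
isomorphic, as a topological group, to `Out(G)` for some oligomorphic group `G ≤ S_∞` with
trivial centre. -/
theorem result (L : Type u) [Group L] [TopologicalSpace L] [IsTopologicalGroup L]
    [SecondCountableTopology L] [LocallyCompactSpace L] [TotallyDisconnectedSpace L] :
    ∃ G : Subgroup SInf, IsOligomorphic G ∧ Subgroup.center G = ⊥ ∧ Nonempty (Out G ≃ₜ* L) :=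
  RZ.main L

/-- The negated form of the question: take the discrete group of integers. -/
theorem not_compact : ∃ G : Subgroup SInf, IsOligomorphic G ∧ ¬ CompactSpace (Out G) := by
  obtain ⟨G, h1, _, ⟨e⟩⟩ := result (Multiplicative ℤ)
  refine ⟨G, h1, fun hc => ?_⟩
  have : CompactSpace (Multiplicative ℤ) := e.toHomeomorph.compactSpace
  exact not_finite_iff_infinite.mpr inferInstance (finite_of_compact_of_discrete (X := Multiplicative ℤ))

end Pool.Agent.Results.MP_94c136_al.Realisation
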